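import Pool.Agent.H64.BTL.Stmts

/-!
# Row PLZ of the board `btl`: places in characteristic zero
-/

set_option autoImplicit false

universe u

namespace Pool.BTL

open Polynomial

namespace PLZ

/-- the place from an embedding in `ℂ` -/
theorem ofComplex {F : Type u} [Field F] (x : F) (φ : F →+* ℂ) (h : ‖φ x‖ ≠ 1) : Place F x :=
  ⟨ℂ, ℂ, inferInstance, inferInstance, inferInstance, inferInstance, inferInstance, φ,
    fun y => isIntegral_algebraMap (R := ℂ) (A := ℂ) (x := φ y), h⟩

theorem exists_transcendental : ∃ y : ℂ, Transcendental ℚ y ∧ ‖y‖ ≠ 1 := by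
  have h1 : ∃ y : ℂ, Transcendental ℚ y := by
    by_contra hc
    push Not at hc
    have h2 : {x : ℂ | IsAlgebraic ℚ x} = Set.univ := by
      ext x
      refine ⟨fun _ => trivial, fun _ => ?_⟩
      have := hc x
      unfold Transcendental at this
      exact not_not.1 this
    have h3 := Algebraic.countable ℚ ℂ
    rw [h2] at h3
    exact not_countable_complex h3
  obtain ⟨y, hy⟩ := h1
  by_cases hn : ‖y‖ = 1
  · refine ⟨algebraMap ℚ ℂ 2 * y, ?_, ?_⟩
    · intro hal
      apply hy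
      have h4 : IsAlgebraic ℚ (algebraMap ℚ ℂ (1 / 2) * (algebraMap ℚ ℂ 2 * y)) :=
        (isAlgebraic_algebraMap (R := ℚ) (A := ℂ) (1 / 2)).mul hal
      rw [← mul_assoc, ← map_mul] at h4
      norm_num at h4
      exact h4
    · rw [norm_mul, hn]
      norm_num
  · exact ⟨y, hy, hn⟩

theorem same_rel {F A : Type*} [Field F] [Field A] [Algebra ℚ F] [Algebra ℚ A] (x : F) (y : A)
    (hx : IsAlgebraic ℚ x) (hy : aeval y (minpoly ℚ x) = 0) (P : ℚ[X]) :
    aeval x P = 0 ↔ aeval y P = 0 := by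
  have h1 : minpoly ℚ x = minpoly ℚ y :=
    minpoly.eq_of_irreducible_of_monic (minpoly.irreducible hx.isIntegral) hy
      (minpoly.monic hx.isIntegral)
  rw [← minpoly.dvd_iff, ← minpoly.dvd_iff, h1]

end PLZ

theorem PLZ_thm (hEXT : EXTStmt.{u}) (hALG : ALGStmt.{u}) (hPAD : PADStmt) : PLZStmt.{u} := by
  intro F _ _ _ x hx0 hx
  have hC : Uncountable ℂ := by
    rw [← not_countable_iff]
    intro h
    exact not_countable_complex (Set.countable_univ_iff.2 h)
  by_cases hxa : IsAlgebraic ℚ x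
  · rcases hALG F x hxa hx0 hx with ⟨y, hy, hy1⟩ | ⟨p, hp, y, hy, hy1⟩
    · obtain ⟨φ, hφ⟩ := hEXT ℚ ℂ F x y (PLZ.same_rel x y hxa hy)
      exact PLZ.ofComplex x φ.toRingHom (by
        change ‖φ x‖ ≠ 1
        rw [hφ]; exact hy1)
    · obtain ⟨hunc, k, i1, i2, i3, ι, hι, hint⟩ := hPAD p
      obtain ⟨φ, hφ⟩ := hEXT ℚ (PadicAlgCl p) F x y (PLZ.same_rel x y hxa hy)
      refine ⟨ℚ_[p], k, inferInstance, inferInstance, i1, i2, i3, ι.comp φ.toRingHom,
        fun z => hint _, ?_⟩
      change ‖ι (φ x)‖ ≠ 1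
      rw [hφ, hι]
      exact hy1
  · obtain ⟨y, hy, hy1⟩ := PLZ.exists_transcendental
    obtain ⟨φ, hφ⟩ := hEXT ℚ ℂ F x y (by
      intro P
      constructor
      · intro h
        have h2 := (transcendental_iff.1 hxa) P h
        rw [h2, map_zero]
      · intro h
        have h2 := (transcendental_iff.1 hy) P h
        rw [h2, map_zero])
    exact PLZ.ofComplex x φ.toRingHom (by
      change ‖φ x‖ ≠ 1
      rw [hφ]; exact hy1)

end Pool.BTL
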